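import Pool.Agent.Lib.H24C.D0

set_option autoImplicit false

/-!
Families: a closed set of codimension greater than `s` in the space of tuples is avoided by all the members of a
generic family `∑ t_i F_i` over a projective variety of dimension at most `s`.
-/

open MvPolynomial

namespace Pool.Agent.H90C

open Pool.Agent.H24C

/-- The projective zero set of the forms in `J` has dimension at most `s`: for every set `S` of at least `s + 2`
homogeneous coordinates there is in `J` a form different from `0` in the coordinates `S`. -/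
def DimLe {N : ℕ} (J : Set (MvPolynomial (Fin (N + 1)) ℂ)) (s : ℕ) : Prop :=
  ∀ S : Finset (Fin (N + 1)), s + 2 ≤ S.card →
    ∃ g ∈ J, g ≠ 0 ∧ (∃ e, g.IsHomogeneous e) ∧ g ∈ supported ℂ (S : Set (Fin (N + 1)))

theorem eRk_range_le {Ω κ : Type} [Field Ω] [Algebra ℂ Ω] [Fintype κ] [DecidableEq κ] (x : κ → Ω) (m : ℕ)
    (h : ∀ S : Finset κ, m < S.card →
      ∃ p : MvPolynomial κ ℂ, p ≠ 0 ∧ p ∈ supported ℂ (S : Set κ) ∧ aeval x p = 0) :
    (AlgebraicIndependent.matroid ℂ Ω).eRk (Set.range x) ≤ m := by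
  classical
  rw [Matroid.eRk_le_iff]
  intro B hB hind
  choose σ hσ using fun b : B => hB b.2
  have hσi : Function.Injective σ := fun a b hab => Subtype.ext (by rw [← hσ a, ← hσ b, hab])
  have hfin : Finite B := Finite.of_injective σ hσi
  have : Fintype B := Fintype.ofFinite B
  by_contra hlt
  rw [not_le] at hlt
  have hcard : (Finset.univ.image σ).card = Fintype.card B := by
    rw [Finset.card_image_of_injective _ hσi, Finset.card_univ]
  have henc : B.encard = ((Fintype.card B : ℕ) : ℕ∞) := by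
    rw [Set.encard_eq_coe_toFinset_card, Set.toFinset_card]
  obtain ⟨p, hp0, hpS, hpx⟩ := h (Finset.univ.image σ) (by
    rw [hcard]
    rw [henc] at hlt
    exact_mod_cast hlt)
  rw [mem_supported] at hpS
  obtain ⟨q, rfl⟩ := exists_rename_eq_of_vars_subset_range p σ hσi (by
    intro i hi
    obtain ⟨b, -, hb⟩ := Finset.mem_image.1 (Finset.mem_coe.1 (hpS hi))
    exact ⟨b, hb⟩)
  rw [aeval_rename] at hpx
  have hx : x ∘ σ = fun b : B => (b : Ω) := funext fun b => hσ b
  rw [hx] at hpx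
  have hq : q = 0 := by
    have hi : AlgebraicIndependent ℂ (fun b : B => id (b : Ω)) := hind
    exact (injective_iff_map_eq_zero _).1 hi q hpx
  exact hp0 (by rw [hq, map_zero])

theorem eval_smul_form {N e : ℕ} {g : MvPolynomial (Fin (N + 1)) ℂ} (hg : g.IsHomogeneous e) (c : ℂ)
    (z : Fin (N + 1) → ℂ) : eval (fun i => c * z i) g = c ^ e * eval z g := by
  rw [eval_eq', eval_eq', Finset.mul_sum]
  refine Finset.sum_congr rfl fun μ hμ => ?_
  have h1 : μ.degree = e := by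
    by_contra hne
    exact (mem_support_iff.1 hμ) (hg.coeff_eq_zero hne)
  have h2 : ∏ i, (c * z i) ^ μ i = c ^ e * ∏ i, z i ^ μ i := by
    rw [← h1, Finsupp.degree_eq_sum, ← Finset.prod_pow_eq_pow_sum, ← Finset.prod_mul_distrib]
    exact Finset.prod_congr rfl fun i _ => mul_pow _ _ _
  rw [h2]
  ring

theorem dehom {N : ℕ} (a : Fin (N + 1)) {g : MvPolynomial (Fin (N + 1)) ℂ} {e : ℕ} (hg : g.IsHomogeneous e)
    (hg0 : g ≠ 0) {S : Finset (Fin (N + 1))}
    (hS : g ∈ supported ℂ ((insert a S : Finset (Fin (N + 1))) : Set (Fin (N + 1)))) :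
    ∃ p : MvPolynomial (Fin (N + 1)) ℂ, p ≠ 0 ∧ p ∈ supported ℂ (S : Set (Fin (N + 1))) ∧
      ∀ (Ω : Type) [Field Ω] [Algebra ℂ Ω] (τ : Fin (N + 1) → Ω), τ a = 1 → aeval τ p = aeval τ g := by
  classical
  obtain ⟨f, hf⟩ : ∃ f : Fin (N + 1) → MvPolynomial (Fin (N + 1)) ℂ, f = fun i => if i = a then 1 else X i := ⟨_, rfl⟩
  have hev : ∀ (Ω : Type) [Field Ω] [Algebra ℂ Ω] (τ : Fin (N + 1) → Ω), τ a = 1 → aeval τ (aeval f g) = aeval τ g := by
    intro Ω _ _ τ hτ
    have h1 : (fun i => aeval τ (f i)) = τ := by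
      funext i
      rw [hf]
      show aeval τ (if i = a then (1 : MvPolynomial (Fin (N + 1)) ℂ) else X i) = τ i
      split_ifs with hi
      · rw [map_one, hi, hτ]
      · rw [aeval_X]
    have h2 : (aeval τ).comp (aeval f) = aeval (R := ℂ) fun i => aeval τ (f i) := comp_aeval _ _
    rw [← AlgHom.comp_apply, h2, h1]
  refine ⟨aeval f g, ?_, ?_, hev⟩
  · intro h0
    apply hg0
    have h3 : X a * g = 0 := by
      refine MvPolynomial.funext fun z => ?_
      rw [map_mul, eval_X, map_zero]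
      by_cases hz : z a = 0
      · rw [hz, zero_mul]
      · have h4 := hev ℂ (fun i => (z a)⁻¹ * z i) (inv_mul_cancel₀ hz)
        rw [h0, map_zero] at h4
        have h5 : eval (fun i => (z a)⁻¹ * z i) g = 0 := by
          rw [← coe_aeval_eq_eval]
          exact h4.symm
        rw [eval_smul_form hg] at h5
        rcases mul_eq_zero.1 h5 with h6 | h6
        · exact absurd h6 (pow_ne_zero _ (inv_ne_zero hz))
        · rw [h6, mul_zero]
    exact (mul_eq_zero.1 h3).resolve_left (X_ne_zero a)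
  · rw [supported_eq_range_rename, AlgHom.mem_range] at hS
    obtain ⟨q, rfl⟩ := hS
    rw [aeval_rename]
    have hmem : ∀ i : ((insert a S : Finset (Fin (N + 1))) : Set (Fin (N + 1))), f i ∈ supported ℂ (S : Set (Fin (N + 1))) := by
      intro i
      rw [hf]
      show (if (i : Fin (N + 1)) = a then (1 : MvPolynomial (Fin (N + 1)) ℂ) else X (i : Fin (N + 1))) ∈ _
      split_ifs with hi
      · exact one_mem _
      · refine X_mem_supported.2 ?_
        rcases Finset.mem_insert.1 (Finset.mem_coe.1 i.2) with h | h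
        · exact absurd h hi
        · exact h
    have h7 : (f ∘ Subtype.val : ((insert a S : Finset (Fin (N + 1))) : Set (Fin (N + 1))) → MvPolynomial (Fin (N + 1)) ℂ) =
        fun i : ((insert a S : Finset (Fin (N + 1))) : Set (Fin (N + 1))) =>
          ((⟨f i, hmem i⟩ : supported ℂ (S : Set (Fin (N + 1)))) : MvPolynomial (Fin (N + 1)) ℂ) := rfl
    rw [h7, Subalgebra.mvPolynomial_aeval_coe]
    exact SetLike.coe_mem _

section

variable {ι : Type} [Fintype ι] [DecidableEq ι] {N s : ℕ}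

/-- The dimension count. -/
theorem count {Ω : Type} [Field Ω] [Algebra ℂ Ω] (a : Fin (N + 1)) (τ : Fin (N + 1) → Ω)
    (y : Fin (N + 1) × ι → Ω) (hy : AlgebraicIndependent ℂ y) (hτa : τ a = 1)
    {J : Set (MvPolynomial (Fin (N + 1)) ℂ)} (hJ : DimLe J s) (hτ : ∀ g ∈ J, aeval τ g = 0)
    {I : Ideal (MvPolynomial ι ℂ)} (hI : CodimGt I s)
    (hG : ∀ Θ ∈ I, aeval (fun ν => ∑ i, τ i * y (i, ν)) Θ = 0) : False := by
  classical
  obtain ⟨G, hGd⟩ : ∃ G : ι → Ω, G = fun ν => ∑ i, τ i * y (i, ν) := ⟨_, rfl⟩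
  rw [← hGd] at hG
  have hDs : s < Fintype.card ι := by
    by_contra hle
    rw [not_lt] at hle
    obtain ⟨Θ, hΘI, hΘ0, hΘS⟩ := hI ∅ (by rw [Finset.compl_empty, Finset.card_univ]; exact hle)
    have h1 := hG Θ hΘI
    rw [Finset.coe_empty, supported_empty, Algebra.mem_bot] at hΘS
    obtain ⟨z, rfl⟩ := hΘS
    rw [AlgHom.commutes] at h1
    exact hΘ0 (by rw [(map_eq_zero _).1 h1, map_zero])
  have hyinj : Function.Injective y := hy.injective
  -- ranks
  have hr1 : (AlgebraicIndependent.matroid ℂ Ω).eRk (Set.range τ) ≤ s := by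
    refine eRk_range_le τ s fun S hS => ?_
    by_cases haS : a ∈ S
    · refine ⟨X a - 1, ?_, ?_, ?_⟩
      · intro h0
        have h1 := congrArg (eval fun _ : Fin (N + 1) => (0 : ℂ)) h0
        rw [map_sub, eval_X, map_one, map_zero, zero_sub, neg_eq_zero] at h1
        exact one_ne_zero h1
      · exact sub_mem (X_mem_supported.2 haS) (one_mem _)
      · rw [map_sub, aeval_X, map_one, hτa, sub_self]
    · obtain ⟨g, hgJ, hg0, ⟨e, hge⟩, hgS⟩ := hJ (insert a S) (by
        rw [Finset.card_insert_of_notMem haS]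
        omega)
      obtain ⟨p, hp0, hpS, hp⟩ := dehom a hge hg0 hgS
      exact ⟨p, hp0, hpS, by rw [hp Ω τ hτa, hτ g hgJ]⟩
  have hr2 : (AlgebraicIndependent.matroid ℂ Ω).eRk (Set.range G) ≤ ((Fintype.card ι - s - 1 : ℕ) : ℕ∞) := by
    refine eRk_range_le G _ fun S hS => ?_
    obtain ⟨Θ, hΘI, hΘ0, hΘS⟩ := hI S (by
      rw [Finset.card_compl]
      omega)
    exact ⟨Θ, hΘ0, hΘS, hG Θ hΘI⟩
  obtain ⟨Y, hY⟩ : ∃ Y : Set Ω, Y = y '' {p | p.1 ≠ a} := ⟨_, rfl⟩
  have hr3 : Y.encard ≤ ((N * Fintype.card ι : ℕ) : ℕ∞) := by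
    rw [hY]
    refine (Set.encard_image_le _ _).trans ?_
    have h1 : {p : Fin (N + 1) × ι | p.1 ≠ a} = ((({a}ᶜ : Finset (Fin (N + 1))) ×ˢ (Finset.univ : Finset ι) :
        Finset (Fin (N + 1) × ι)) : Set (Fin (N + 1) × ι)) := by
      ext p
      simp
    rw [h1, Set.encard_coe_eq_coe_finsetCard, Finset.card_product, Finset.card_compl, Finset.card_singleton,
      Fintype.card_fin, Finset.card_univ, Nat.add_sub_cancel]
  have hcl : Set.range y ⊆ (AlgebraicIndependent.matroid ℂ Ω).closure (Set.range τ ∪ Set.range G ∪ Y) := by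
    rw [AlgebraicIndependent.matroid_closure_eq]
    rintro _ ⟨⟨i, ν⟩, rfl⟩
    rw [SetLike.mem_coe, Subalgebra.mem_algebraicClosure]
    have hτm : ∀ i, τ i ∈ Algebra.adjoin ℂ (Set.range τ ∪ Set.range G ∪ Y) := fun i =>
      Algebra.subset_adjoin (Or.inl (Or.inl ⟨i, rfl⟩))
    have hGm : ∀ ν, G ν ∈ Algebra.adjoin ℂ (Set.range τ ∪ Set.range G ∪ Y) := fun ν =>
      Algebra.subset_adjoin (Or.inl (Or.inr ⟨ν, rfl⟩))
    have hYm : ∀ i ν, i ≠ a → y (i, ν) ∈ Algebra.adjoin ℂ (Set.range τ ∪ Set.range G ∪ Y) := fun i ν hi =>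
      Algebra.subset_adjoin (Or.inr (by rw [hY]; exact ⟨(i, ν), hi, rfl⟩))
    have hall : y (i, ν) ∈ Algebra.adjoin ℂ (Set.range τ ∪ Set.range G ∪ Y) := by
      by_cases hi : i = a
      · rw [hi]
        have h1 : G ν = y (a, ν) + ∑ i ∈ Finset.univ.erase a, τ i * y (i, ν) := by
          rw [hGd]
          show ∑ i, τ i * y (i, ν) = _
          rw [← Finset.add_sum_erase _ _ (Finset.mem_univ a), hτa, one_mul]
        have h2 : y (a, ν) = G ν - ∑ i ∈ Finset.univ.erase a, τ i * y (i, ν) := by rw [h1]; ring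
        rw [h2]
        exact sub_mem (hGm ν) (sum_mem fun i hi => mul_mem (hτm i) (hYm i ν (Finset.ne_of_mem_erase hi)))
      · exact hYm i ν hi
    exact isAlgebraic_algebraMap (⟨_, hall⟩ : Algebra.adjoin ℂ (Set.range τ ∪ Set.range G ∪ Y))
  have hind : (AlgebraicIndependent.matroid ℂ Ω).Indep (Set.range y) := hy.coe_range
  have h1 : (Set.range y).encard ≤ (AlgebraicIndependent.matroid ℂ Ω).eRk (Set.range τ ∪ Set.range G ∪ Y) := by
    rw [← hind.eRk_eq_encard, ← Matroid.eRk_closure_eq _ (Set.range τ ∪ Set.range G ∪ Y)]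
    exact Matroid.eRk_mono _ hcl
  have h2 : (Set.range y).encard = (((N + 1) * Fintype.card ι : ℕ) : ℕ∞) := by
    rw [← Set.image_univ, hyinj.encard_image, Set.encard_univ, ENat.card_eq_coe_fintype_card,
      Fintype.card_prod, Fintype.card_fin]
  have h3 : (((N + 1) * Fintype.card ι : ℕ) : ℕ∞) ≤
      ((s + (Fintype.card ι - s - 1) + N * Fintype.card ι : ℕ) : ℕ∞) := by
    rw [← h2]
    refine h1.trans ((Matroid.eRk_union_le_eRk_add_eRk _ _ _).trans ?_)
    push_cast
    refine add_le_add ((Matroid.eRk_union_le_eRk_add_eRk _ _ _).trans (add_le_add hr1 ?_)) ?_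
    · exact_mod_cast hr2
    · exact (Matroid.eRk_le_encard _ _).trans (by exact_mod_cast hr3)
  have h4 : (N + 1) * Fintype.card ι ≤ s + (Fintype.card ι - s - 1) + N * Fintype.card ι := by exact_mod_cast h3
  rw [add_mul, one_mul] at h4
  omega

/-- One chart. -/
theorem chart (a : Fin (N + 1)) {J : Set (MvPolynomial (Fin (N + 1)) ℂ)} (hJ : DimLe J s)
    {I : Ideal (MvPolynomial ι ℂ)} (hI : CodimGt I s) :
    ∃ R : MvPolynomial (Fin (N + 1) × ι) ℂ, R ≠ 0 ∧ ∀ F : Fin (N + 1) × ι → ℂ, eval F R ≠ 0 →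
      ∀ t : Fin (N + 1) → ℂ, t a = 1 → (∀ g ∈ J, eval t g = 0) →
        ∃ Θ ∈ I, eval (fun ν => ∑ i, t i * F (i, ν)) Θ ≠ 0 := by
  classical
  obtain ⟨E, hE⟩ : ∃ E : Ideal (MvPolynomial (Fin (N + 1)) (MvPolynomial (Fin (N + 1) × ι) ℂ)),
      E = Ideal.span ({X a - 1} ∪ (map (C : ℂ →+* MvPolynomial (Fin (N + 1) × ι) ℂ)) '' J ∪
        (fun Θ : MvPolynomial ι ℂ => aeval (fun ν => ∑ i, X i * C (X (i, ν)) :
          ι → MvPolynomial (Fin (N + 1)) (MvPolynomial (Fin (N + 1) × ι) ℂ)) Θ) '' (I : Set (MvPolynomial ι ℂ))) := ⟨_, rfl⟩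
  by_cases hcase : ∃ R : MvPolynomial (Fin (N + 1) × ι) ℂ, R ≠ 0 ∧ C R ∈ E
  · obtain ⟨R, hR0, hRE⟩ := hcase
    refine ⟨R, hR0, fun F hF t hta htJ => ?_⟩
    by_contra hcon
    push Not at hcon
    apply hF
    obtain ⟨φ, hφ⟩ : ∃ φ : MvPolynomial (Fin (N + 1)) (MvPolynomial (Fin (N + 1) × ι) ℂ) →+* ℂ,
      φ = eval₂Hom (eval F) t := ⟨_, rfl⟩
    have hφC : ∀ R, φ (C R) = eval F R := fun R => by rw [hφ, eval₂Hom_C]
    have hφX : ∀ i, φ (X i) = t i := fun i => by rw [hφ, eval₂Hom_X']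
    have hker : E ≤ RingHom.ker φ := by
      rw [hE, Ideal.span_le]
      rintro x ((hx | ⟨g, hg, rfl⟩) | ⟨Θ, hΘ, rfl⟩)
      · rw [Set.mem_singleton_iff] at hx
        rw [hx, SetLike.mem_coe, RingHom.mem_ker, map_sub, hφX, map_one, hta, sub_self]
      · rw [SetLike.mem_coe, RingHom.mem_ker, hφ, coe_eval₂Hom, eval₂_map]
        have h1 : (eval F).comp (C : ℂ →+* MvPolynomial (Fin (N + 1) × ι) ℂ) = RingHom.id ℂ := by
          ext z
          rw [RingHom.comp_apply, eval_C, RingHom.id_apply]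
        rw [h1, eval₂_id]
        exact htJ g hg
      · rw [SetLike.mem_coe, RingHom.mem_ker]
        have h1 : φ.comp (aeval (R := ℂ) (fun ν => ∑ i, X i * C (X (i, ν)) :
            ι → MvPolynomial (Fin (N + 1)) (MvPolynomial (Fin (N + 1) × ι) ℂ))).toRingHom =
            eval fun ν => ∑ i, t i * F (i, ν) := by
          refine MvPolynomial.ringHom_ext (fun z => ?_) fun ν => ?_
          · rw [RingHom.comp_apply, eval_C]
            show φ (aeval _ (C z)) = z
            rw [aeval_C, IsScalarTower.algebraMap_apply ℂ (MvPolynomial (Fin (N + 1) × ι) ℂ)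
              (MvPolynomial (Fin (N + 1)) (MvPolynomial (Fin (N + 1) × ι) ℂ)), MvPolynomial.algebraMap_eq,
              MvPolynomial.algebraMap_eq, hφC, eval_C]
          · rw [RingHom.comp_apply, eval_X]
            show φ (aeval _ (X ν)) = _
            rw [aeval_X, map_sum]
            exact Finset.sum_congr rfl fun i _ => by rw [map_mul, hφX, hφC, eval_X]
        have h2 := congrArg (fun ψ : MvPolynomial ι ℂ →+* ℂ => ψ Θ) h1
        exact h2.trans (hcon Θ hΘ)
    have h1 := hker hRE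
    rw [RingHom.mem_ker, hφC] at h1
    exact h1
  · exfalso
    push Not at hcase
    obtain ⟨Q, hQp, hEQ, hdis⟩ := Ideal.exists_le_prime_disjoint E
      ((nonZeroDivisors (MvPolynomial (Fin (N + 1) × ι) ℂ)).map
        (C : MvPolynomial (Fin (N + 1) × ι) ℂ →+* MvPolynomial (Fin (N + 1)) (MvPolynomial (Fin (N + 1) × ι) ℂ)))
      (by
        rw [Set.disjoint_left]
        rintro x hx ⟨R, hR, rfl⟩
        exact hcase R (nonZeroDivisors.ne_zero hR) hx)
    obtain ⟨φ, hφ⟩ : ∃ φ : MvPolynomial (Fin (N + 1)) (MvPolynomial (Fin (N + 1) × ι) ℂ) →ₐ[ℂ]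
        FractionRing (MvPolynomial (Fin (N + 1)) (MvPolynomial (Fin (N + 1) × ι) ℂ) ⧸ Q),
        ∀ x, φ x = algebraMap (MvPolynomial (Fin (N + 1)) (MvPolynomial (Fin (N + 1) × ι) ℂ) ⧸ Q) _
          (Ideal.Quotient.mk Q x) :=
      ⟨(IsScalarTower.toAlgHom ℂ (MvPolynomial (Fin (N + 1)) (MvPolynomial (Fin (N + 1) × ι) ℂ) ⧸ Q)
        (FractionRing (MvPolynomial (Fin (N + 1)) (MvPolynomial (Fin (N + 1) × ι) ℂ) ⧸ Q))).comp
          (Ideal.Quotient.mkₐ ℂ Q), fun x => by
            rw [AlgHom.comp_apply, IsScalarTower.toAlgHom_apply, Ideal.Quotient.mkₐ_eq_mk]⟩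
    have hφ0 : ∀ x, φ x = 0 ↔ x ∈ Q := fun x => by
      rw [hφ, ← Ideal.Quotient.eq_zero_iff_mem]
      exact map_eq_zero_iff _ (IsFractionRing.injective (MvPolynomial (Fin (N + 1)) (MvPolynomial (Fin (N + 1) × ι) ℂ) ⧸ Q)
        (FractionRing (MvPolynomial (Fin (N + 1)) (MvPolynomial (Fin (N + 1) × ι) ℂ) ⧸ Q)))
    have hφE : ∀ x ∈ E, φ x = 0 := fun x hx => (hφ0 x).2 (hEQ hx)
    refine count a (fun i => φ (X i)) (fun p => φ (C (X p))) ?_ ?_ hJ ?_ hI ?_
    · have h1 : (φ.comp (IsScalarTower.toAlgHom ℂ (MvPolynomial (Fin (N + 1) × ι) ℂ)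
          (MvPolynomial (Fin (N + 1)) (MvPolynomial (Fin (N + 1) × ι) ℂ)))) =
          aeval fun p : Fin (N + 1) × ι => φ (C (X p)) := by
        refine MvPolynomial.algHom_ext fun p => ?_
        rw [aeval_X]
        rfl
      show Function.Injective (aeval fun p : Fin (N + 1) × ι => φ (C (X p)))
      rw [injective_iff_map_eq_zero, ← h1]
      intro R hR
      by_contra hR0
      have h2 : φ (C R) = 0 := hR
      rw [hφ0] at h2
      exact Set.disjoint_left.1 hdis h2 ⟨R, mem_nonZeroDivisors_of_ne_zero hR0, rfl⟩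
    · have h1 : φ (X a - 1) = 0 := hφE _ (by
        rw [hE]
        exact Ideal.subset_span (Or.inl (Or.inl rfl)))
      rw [map_sub, map_one, sub_eq_zero] at h1
      exact h1
    · intro g hg
      have h1 : φ (map C g) = 0 := hφE _ (by
        rw [hE]
        exact Ideal.subset_span (Or.inl (Or.inr ⟨g, hg, rfl⟩)))
      have h2 : map (C : ℂ →+* MvPolynomial (Fin (N + 1) × ι) ℂ) g = aeval (fun i => X i) g := by
        rw [aeval_def, ← eval₂_eta (map C g), eval₂_map]
        rfl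
      rw [h2] at h1
      rw [← h1]
      exact (comp_aeval_apply _ φ g).symm
    · intro Θ hΘ
      have h1 := hφE _ (by
        rw [hE]
        exact Ideal.subset_span (Or.inr ⟨Θ, hΘ, rfl⟩))
      rw [← h1]
      have h2 : (fun ν => ∑ i, φ (X i) * φ (C (X (i, ν)))) = fun ν : ι => φ (∑ i, X i * C (X (i, ν))) := by
        funext ν
        rw [map_sum]
        exact Finset.sum_congr rfl fun i _ => (map_mul _ _ _).symm
      rw [h2]
      exact (comp_aeval_apply _ φ Θ).symm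

/-- **Families.** The zero set of `I` has codimension greater than `s` and is a cone, the projective variety `J = 0` has dimension
at most `s`: for generic `F_0, .., F_N` no member `∑ t_i F_i`, `t` in the variety, is in the zero set of `I`. -/
theorem fam {J : Set (MvPolynomial (Fin (N + 1)) ℂ)} (hJh : ∀ g ∈ J, ∃ e, g.IsHomogeneous e) (hJ : DimLe J s)
    {I : Ideal (MvPolynomial ι ℂ)} (hI : CodimGt I s) :
    ∃ R : MvPolynomial (Fin (N + 1) × ι) ℂ, R ≠ 0 ∧ ∀ F : Fin (N + 1) × ι → ℂ, eval F R ≠ 0 →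
      ∀ t : Fin (N + 1) → ℂ, t ≠ 0 → (∀ g ∈ J, eval t g = 0) →
        ∃ c : ℂ, c ≠ 0 ∧ ∃ Θ ∈ I, eval (fun ν => c * ∑ i, t i * F (i, ν)) Θ ≠ 0 := by
  classical
  choose R hR0 hR using fun a : Fin (N + 1) => chart a hJ hI
  refine ⟨∏ a, R a, Finset.prod_ne_zero_iff.2 fun a _ => hR0 a, fun F hF t ht htJ => ?_⟩
  obtain ⟨a, ha⟩ : ∃ a, t a ≠ 0 := by
    by_contra hcon
    push Not at hcon
    exact ht (funext hcon)
  rw [map_prod] at hF
  obtain ⟨Θ, hΘI, hΘ⟩ := hR a F (Finset.prod_ne_zero_iff.1 hF a (Finset.mem_univ a)) (fun i => (t a)⁻¹ * t i)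
    (inv_mul_cancel₀ ha) (fun g hg => by
      obtain ⟨e, he⟩ := hJh g hg
      rw [eval_smul_form he, htJ g hg, mul_zero])
  refine ⟨(t a)⁻¹, inv_ne_zero ha, Θ, hΘI, ?_⟩
  have h1 : (fun ν => (t a)⁻¹ * ∑ i, t i * F (i, ν)) = fun ν => ∑ i, (t a)⁻¹ * t i * F (i, ν) := by
    funext ν
    rw [Finset.mul_sum]
    exact Finset.sum_congr rfl fun i _ => (mul_assoc _ _ _).symm
  rw [h1]
  exact hΘ

end

end Pool.Agent.H90C
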