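import Pool.Agent.Lib.H90C.Fam

set_option autoImplicit false

/-!
Families of tuples of forms over a projective variety of dimension at most `s`.
-/

open MvPolynomial

namespace Pool.Agent.H90C

open Pool.Agent.H89T Pool.Agent.H67T Pool.Agent.H53U Pool.Agent.H24V Pool.Agent.H24C

variable {M c : ℕ} {d : Fin c → ℕ}

/-- The coefficients of a family `F_0, .., F_N` of tuples. -/
noncomputable def cfF {N M c : ℕ} (d : Fin c → ℕ) (F : Fin (N + 1) → Fin c → MvPolynomial (Fin (M + 1)) ℂ) :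
    Fin (N + 1) × IT (Fin (M + 1)) d → ℂ := fun p => cfT d (F p.1) p.2

/-- The member `∑ t_i F_i` of the family. -/
noncomputable def mem {N M c : ℕ} (F : Fin (N + 1) → Fin c → MvPolynomial (Fin (M + 1)) ℂ) (t : Fin (N + 1) → ℂ) :
    Fin c → MvPolynomial (Fin (M + 1)) ℂ := fun j => ∑ i, C (t i) * F i j

/-- A property of tuples of forms which holds outside a closed set of codimension greater than `s`, and is
invariant under multiplication by constants, holds for all the members of a generic family over a projective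
variety of dimension at most `s`. -/
theorem fam_prop {N s : ℕ} {J : Set (MvPolynomial (Fin (N + 1)) ℂ)} (hJh : ∀ g ∈ J, ∃ e, g.IsHomogeneous e)
    (hJ : DimLe J s) (P : (Fin c → MvPolynomial (Fin (M + 1)) ℂ) → Prop)
    (hP : ∀ (z : ℂ), z ≠ 0 → ∀ F : Fin c → MvPolynomial (Fin (M + 1)) ℂ, P (fun j => C z * F j) → P F)
    (h : ∃ I : Ideal (MvPolynomial (IT (Fin (M + 1)) d) ℂ), CodimGt I s ∧
      ∀ F : Fin c → MvPolynomial (Fin (M + 1)) ℂ, (∀ j, (F j).IsHomogeneous (d j)) →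
        (∃ Θ ∈ I, eval (cfT d F) Θ ≠ 0) → P F) :
    ∃ R : MvPolynomial (Fin (N + 1) × IT (Fin (M + 1)) d) ℂ, R ≠ 0 ∧
      ∀ F : Fin (N + 1) → Fin c → MvPolynomial (Fin (M + 1)) ℂ, (∀ i j, (F i j).IsHomogeneous (d j)) →
        eval (cfF d F) R ≠ 0 → ∀ t : Fin (N + 1) → ℂ, t ≠ 0 → (∀ g ∈ J, eval t g = 0) → P (mem F t) := by
  obtain ⟨I, hI, hmain⟩ := h
  obtain ⟨R, hR0, hR⟩ := fam hJh hJ hI
  refine ⟨R, hR0, fun F hF hFR t ht htJ => ?_⟩
  obtain ⟨z, hz, Θ, hΘI, hΘ⟩ := hR (cfF d F) hFR t ht htJ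
  refine hP z hz _ (hmain _ (fun j => ?_) ⟨Θ, hΘI, ?_⟩)
  · have h1 : (mem F t j).IsHomogeneous (d j) := by
      refine IsHomogeneous.sum _ _ _ fun i _ => ?_
      have h2 := (isHomogeneous_C (Fin (M + 1)) (t i)).mul (hF i j)
      rwa [zero_add] at h2
    have h2 := (isHomogeneous_C (Fin (M + 1)) z).mul h1
    rwa [zero_add] at h2
  · have h1 : cfT d (fun j => C z * mem F t j) = fun ν => z * ∑ i, t i * cfF d F (i, ν) := by
      funext ν
      show coeff (ν.2 : Fin (M + 1) →₀ ℕ) (C z * mem F t ν.1) = _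
      rw [coeff_C_mul]
      congr 1
      show coeff (ν.2 : Fin (M + 1) →₀ ℕ) (∑ i, C (t i) * F i ν.1) = _
      rw [coeff_sum]
      exact Finset.sum_congr rfl fun i _ => coeff_C_mul _ _ _
    rw [h1]
    exact hΘ

/-- `ℙ ^ N`, `N ≤ s`, has dimension at most `s` (linear systems). -/
theorem dimLe_of_le {N s : ℕ} (h : N ≤ s) (J : Set (MvPolynomial (Fin (N + 1)) ℂ)) : DimLe J s := by
  intro S hS
  have h1 := Finset.card_le_univ S
  rw [Fintype.card_fin] at h1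
  omega

/-- The main property for all the members of a generic family. -/
theorem fam_hypC {B N c : ℕ} {d : Fin c → ℕ} (h : HypC B N c d) {M s : ℕ} (hM : c ≤ M) (hMN : M + c ≤ 2 * N)
    {N' : ℕ} {J : Set (MvPolynomial (Fin (N' + 1)) ℂ)} (hJh : ∀ g ∈ J, ∃ e, g.IsHomogeneous e) (hJ : DimLe J s) :
    ∃ R : MvPolynomial (Fin (N' + 1) × IT (Fin (M + 1)) d) ℂ, R ≠ 0 ∧
      ∀ F : Fin (N' + 1) → Fin c → MvPolynomial (Fin (M + 1)) ℂ, (∀ i j, (F i j).IsHomogeneous (d j)) →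
        eval (cfF d F) R ≠ 0 → ∀ t : Fin (N' + 1) → ℂ, t ≠ 0 → (∀ g ∈ J, eval t g = 0) →
          ∃ T : Set (MvPolynomial (Fin (M + 1)) ℂ), (∀ G ∈ T, ∃ e, G.IsHomogeneous e) ∧
            (∀ r, r + M + s ≤ 2 * N → CodimGt (Ideal.span T) r) ∧ VanL B (mem F t) T := by
  refine fam_prop hJh hJ (fun F => ∃ T : Set (MvPolynomial (Fin (M + 1)) ℂ), (∀ G ∈ T, ∃ e, G.IsHomogeneous e) ∧
    (∀ r, r + M + s ≤ 2 * N → CodimGt (Ideal.span T) r) ∧ VanL B F T) ?_ (h M s hM hMN)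
  rintro z hz F ⟨T, h1, h2, h3⟩
  refine ⟨T, h1, h2, fun L _ _ D hD y hy hyn G hG => h3 L D hD y (fun j => ?_) hyn G hG⟩
  rw [map_mul, hy j, mul_zero]

end Pool.Agent.H90C
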